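import Mathlib
import Pool.Agent.W207.PF.SpecA

/-! # Transforms of smooth functions of compact support -/

set_option autoImplicit false

open Filter Topology Set MeasureTheory
open scoped BigOperators FourierTransform ContDiff SchwartzMap

namespace Pool.Agent.W125.PF

open W207.PR W207.PF

/-- a smooth compactly supported real function as a complex Schwartz function -/
theorem exists_schwartz (f : ℝ → ℝ) (hf : ∀ n : ℕ, ContDiff ℝ n f)
    (h2 : HasCompactSupport f) : ∃ F : 𝓢(ℝ, ℂ), ∀ x, F x = (f x : ℂ) := by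
  have h1 : ContDiff ℝ ∞ f := contDiff_infty.2 hf
  have h3 : HasCompactSupport (fun x => (f x : ℂ)) := h2.comp_left (g := fun y : ℝ => (y : ℂ))
    (by simp)
  exact ⟨h3.toSchwartzMap (Complex.ofRealCLM.contDiff.comp h1), fun x => rfl⟩

theorem schwartz_decay (F : 𝓢(ℝ, ℂ)) (n : ℕ) :
    ∃ K : ℝ, 0 < K ∧ ∀ x, ‖F x‖ * (1 + |x|) ^ n ≤ K := by
  have h := fun x => SchwartzMap.one_add_le_sup_seminorm_apply (𝕜 := ℝ) (m := (n, 0)) (k := n)
    (n := 0) le_rfl le_rfl F x
  refine ⟨max 1 (2 ^ ((n, 0) : ℕ × ℕ).1 * (Finset.Iic ((n, 0) : ℕ × ℕ)).sup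
    (fun m => SchwartzMap.seminorm ℝ m.1 m.2) F), lt_max_of_lt_left one_pos, fun x => ?_⟩
  have h1 := h x
  rw [norm_iteratedFDeriv_zero, Real.norm_eq_abs, mul_comm] at h1
  exact h1.trans (le_max_right _ _)

theorem int_four (F : 𝓢(ℝ, ℂ)) (x : ℝ) :
    Integrable (fun v : ℝ => Complex.exp (↑(-2 * Real.pi * v * x) * Complex.I) • F v) := by
  have hF : Integrable (F : ℝ → ℂ) := F.integrable
  have hc : Continuous (fun v : ℝ => Complex.exp (↑(-2 * Real.pi * v * x) * Complex.I) • F v) := by
    have := F.continuous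
    fun_prop
  refine hF.norm.mono' hc.aestronglyMeasurable (Filter.Eventually.of_forall fun v => ?_)
  rw [norm_smul, Complex.norm_exp_ofReal_mul_I, one_mul]

/-- the real part of the Fourier transform -/
theorem re_fourier (F : 𝓢(ℝ, ℂ)) (f : ℝ → ℝ) (hF : ∀ x, F x = (f x : ℂ)) (x : ℝ) :
    (𝓕 (F : ℝ → ℂ) x).re = ∫ v : ℝ, f v * Real.cos (2 * Real.pi * v * x) := by
  rw [Real.fourier_real_eq_integral_exp_smul]
  have hint : Integrable (fun v : ℝ => Complex.exp (↑(-2 * Real.pi * v * x) * Complex.I) • F v) := by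
    exact int_four F x
  have h := Complex.reCLM.integral_comp_comm hint
  simp only [Complex.reCLM_apply] at h
  rw [← h]
  refine integral_congr_ae (Filter.Eventually.of_forall fun v => ?_)
  simp only [hF v, smul_eq_mul, Complex.re_mul_ofReal, Complex.exp_ofReal_mul_I_re]
  rw [mul_comm]
  congr 1
  rw [← Real.cos_neg]
  congr 1
  ring

/-- the imaginary part of the Fourier transform -/
theorem im_fourier (F : 𝓢(ℝ, ℂ)) (f : ℝ → ℝ) (hF : ∀ x, F x = (f x : ℂ)) (x : ℝ) :
    (𝓕 (F : ℝ → ℂ) x).im = -∫ v : ℝ, f v * Real.sin (2 * Real.pi * v * x) := by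
  rw [Real.fourier_real_eq_integral_exp_smul]
  have hint : Integrable (fun v : ℝ => Complex.exp (↑(-2 * Real.pi * v * x) * Complex.I) • F v) := by
    exact int_four F x
  have h := Complex.imCLM.integral_comp_comm hint
  simp only [Complex.imCLM_apply] at h
  rw [← h, ← integral_neg]
  refine integral_congr_ae (Filter.Eventually.of_forall fun v => ?_)
  simp only [hF v, smul_eq_mul, Complex.im_mul_ofReal, Complex.exp_ofReal_mul_I_im]
  have h2 : Real.sin (-2 * Real.pi * v * x) = -Real.sin (2 * Real.pi * v * x) := by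
    rw [← Real.sin_neg]
    congr 1
    ring
  rw [h2]
  ring

theorem int_sym (f : ℝ → ℝ) (hf : Continuous f) (a : ℝ) :
    ∫ x in (-a)..a, f x = ∫ x in (0 : ℝ)..a, (f x + f (-x)) := by
  have h1 := intervalIntegral.integral_add_adjacent_intervals
    (hf.intervalIntegrable (μ := volume) (-a) 0) (hf.intervalIntegrable (μ := volume) 0 a)
  have h2 : ∫ x in (0 : ℝ)..a, f (-x) = ∫ x in (-a)..0, f x := by
    have := intervalIntegral.integral_comp_neg (f := f) (a := 0) (b := a)
    rw [neg_zero] at this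
    exact this
  have h3 : Continuous fun x => f (-x) := hf.comp continuous_neg
  rw [← h1, intervalIntegral.integral_add (hf.intervalIntegrable _ _) (h3.intervalIntegrable _ _),
    h2]
  ring

/-- the Fejér kernel -/
lemma fejer {x : ℝ} (hx : x ≠ 0) :
    ∫ β in (-1 : ℝ)..1, (1 - |β|) * Real.cos (2 * Real.pi * x * β) =
      (Real.sin (Real.pi * x) / (Real.pi * x)) ^ 2 := by
  have hpi := Real.pi_pos
  rw [int_sym (fun β => (1 - |β|) * Real.cos (2 * Real.pi * x * β)) (by fun_prop) 1]
  have hk : 2 * Real.pi * x ≠ 0 := by positivity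
  have h1 : ∀ β ∈ Set.uIcc (0 : ℝ) 1, (1 - |β|) * Real.cos (2 * Real.pi * x * β) +
      (1 - |-β|) * Real.cos (2 * Real.pi * x * -β) =
      2 * ((1 - β) * Real.cos (2 * Real.pi * x * β)) := by
    intro β hβ
    rw [Set.uIcc_of_le zero_le_one] at hβ
    rw [abs_neg, abs_of_nonneg hβ.1, mul_neg, Real.cos_neg]
    ring
  rw [intervalIntegral.integral_congr h1]
  set k := 2 * Real.pi * x with hkdef
  have h2 : ∀ β ∈ Set.uIcc (0 : ℝ) 1, HasDerivAt (fun β : ℝ => 2 * ((1 - β) * Real.sin (k * β) / k -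
      Real.cos (k * β) / k ^ 2)) (2 * ((1 - β) * Real.cos (k * β))) β := by
    intro β _
    have h3 : HasDerivAt (fun β : ℝ => k * β) k β := by
      simpa using (hasDerivAt_id β).const_mul k
    have h4 := h3.sin
    have h5 := h3.cos
    have h6 : HasDerivAt (fun β : ℝ => 1 - β) (-1) β := by
      simpa using (hasDerivAt_id β).const_sub 1
    have h7 := (((h6.mul h4).div_const k).sub (h5.div_const (k ^ 2))).const_mul 2
    refine h7.congr_deriv ?_
    field_simp
    ring
  rw [intervalIntegral.integral_eq_sub_of_hasDerivAt h2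
    ((by fun_prop : Continuous fun β : ℝ => 2 * ((1 - β) * Real.cos (k * β))).intervalIntegrable _ _)]
  have h8 : Real.cos (k * 1) = 1 - 2 * Real.sin (Real.pi * x) ^ 2 := by
    have : k * 1 = 2 * (Real.pi * x) := by rw [hkdef]; ring
    rw [this, Real.cos_two_mul, Real.cos_sq']
    ring
  rw [h8]
  simp only [mul_zero, Real.sin_zero, Real.cos_zero, sub_self, zero_mul, zero_div, sub_zero, mul_one]
  rw [hkdef]
  field_simp
  ring

/-- the tent -/
noncomputable def tent (β : ℝ) : ℝ := max (1 - |β|) 0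

theorem tent_cont : Continuous tent := by
  unfold tent
  fun_prop

theorem tent_supp : HasCompactSupport tent := by
  refine HasCompactSupport.intro (isCompact_Icc (a := (-1 : ℝ)) (b := 1)) ?_
  intro x hx
  have : 1 ≤ |x| := by
    by_contra h
    push Not at h
    exact hx (abs_le.1 h.le)
  exact max_eq_right (by linarith)

theorem tent_int : Integrable tent := tent_cont.integrable_of_hasCompactSupport tent_supp

theorem fejer' {x : ℝ} (hx : x ≠ 0) :
    ∫ β, tent β * Real.cos (2 * Real.pi * x * β) =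
      (Real.sin (Real.pi * x) / (Real.pi * x)) ^ 2 := by
  rw [← fejer hx]
  have h1 : ∫ β in (-1 : ℝ)..1, (1 - |β|) * Real.cos (2 * Real.pi * x * β) =
      ∫ β in (-1 : ℝ)..1, tent β * Real.cos (2 * Real.pi * x * β) := by
    refine intervalIntegral.integral_congr fun β hβ => ?_
    rw [Set.uIcc_of_le (by norm_num)] at hβ
    have : |β| ≤ 1 := abs_le.2 hβ
    show (1 - |β|) * _ = max (1 - |β|) 0 * _
    rw [max_eq_left (by linarith)]
  rw [h1, intervalIntegral.integral_eq_integral_of_support_subset]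
  intro β hβ
  by_contra h
  apply hβ
  have h2 : 1 ≤ |β| := by
    by_contra h3
    push Not at h3
    obtain ⟨h4, h5⟩ := abs_lt.1 h3
    exact h ⟨h4, h5.le⟩
  show max (1 - |β|) 0 * _ = 0
  rw [max_eq_right (by linarith), zero_mul]

theorem one_sub_tent (α : ℝ) : 1 - tent α = min |α| 1 := by
  unfold tent
  rcases le_total |α| 1 with h | h
  · rw [max_eq_left (by linarith), min_eq_left h]
    ring
  · rw [max_eq_right (by linarith), min_eq_right h]
    ring

/-- Fourier inversion -/
theorem ct_inv (ψ : ℝ → ℝ) (F : 𝓢(ℝ, ℂ)) (hF : ∀ x, F x = (ψ x : ℂ)) (β : ℝ) :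
    ∫ x, ct ψ x * Real.cos (2 * Real.pi * x * β) = (ψ β + ψ (-β)) / 2 := by
  have hct : ∀ x, ct ψ x = ((𝓕 F : 𝓢(ℝ, ℂ)) x).re := by
    intro x
    rw [SchwartzMap.fourier_coe, re_fourier F ψ hF x]
    rfl
  set H : 𝓢(ℝ, ℂ) := 𝓕 F with hH
  have hHi : Integrable (H : ℝ → ℂ) := H.integrable
  have hre : Integrable fun x => (H x).re := hHi.re
  have him : Integrable fun x => (H x).im := hHi.im
  have key : ∀ γ : ℝ, ψ γ = (∫ x, (H x).re * Real.cos (2 * Real.pi * x * γ)) -
      ∫ x, (H x).im * Real.sin (2 * Real.pi * x * γ) := by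
    intro γ
    have h1 : 𝓕⁻ (H : ℝ → ℂ) γ = (ψ γ : ℂ) := by
      have h2 : (𝓕⁻ H : 𝓢(ℝ, ℂ)) = F := by
        rw [hH]
        exact FourierTransform.fourierInv_fourier_eq F
      rw [← SchwartzMap.fourierInv_coe, h2, hF]
    rw [Real.fourierInv_eq'] at h1
    have h3 := congrArg Complex.re h1
    have hint : Integrable fun v : ℝ => Complex.exp (↑(2 * Real.pi * inner ℝ v γ) * Complex.I) •
        H v := by
      refine hHi.norm.mono' (by
        apply Continuous.aestronglyMeasurable
        have := H.continuous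
        fun_prop) (Filter.Eventually.of_forall fun v => ?_)
      rw [norm_smul, Complex.norm_exp_ofReal_mul_I, one_mul]
    have h4 := (Complex.reCLM.integral_comp_comm hint).symm
    simp only [Complex.reCLM_apply] at h4
    rw [h4, Complex.ofReal_re] at h3
    have hc : Integrable fun x => (H x).re * Real.cos (2 * Real.pi * x * γ) := by
      refine hre.norm.mono' (hre.aestronglyMeasurable.mul (by
        apply Continuous.aestronglyMeasurable
        fun_prop)) (Filter.Eventually.of_forall fun v => ?_)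
      rw [norm_mul]
      exact mul_le_of_le_one_right (norm_nonneg _) (Real.abs_cos_le_one _)
    have hs : Integrable fun x => (H x).im * Real.sin (2 * Real.pi * x * γ) := by
      refine him.norm.mono' (him.aestronglyMeasurable.mul (by
        apply Continuous.aestronglyMeasurable
        fun_prop)) (Filter.Eventually.of_forall fun v => ?_)
      rw [norm_mul]
      exact mul_le_of_le_one_right (norm_nonneg _) (Real.abs_sin_le_one _)
    rw [← integral_sub hc hs, ← h3]
    refine integral_congr_ae (Filter.Eventually.of_forall fun v => ?_)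
    show (Complex.exp (↑(2 * Real.pi * inner ℝ v γ) * Complex.I) • H v).re =
      (H v).re * Real.cos (2 * Real.pi * v * γ) - (H v).im * Real.sin (2 * Real.pi * v * γ)
    have h5 : (2 * Real.pi * inner ℝ v γ : ℝ) = 2 * Real.pi * v * γ := by
      simp [inner]
      ring
    rw [h5, smul_eq_mul, Complex.mul_re, Complex.exp_ofReal_mul_I_re, Complex.exp_ofReal_mul_I_im]
    ring
  have k1 := key β
  have k2 := key (-β)
  have k3 : ∫ x, (H x).re * Real.cos (2 * Real.pi * x * -β) =
      ∫ x, (H x).re * Real.cos (2 * Real.pi * x * β) := by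
    refine integral_congr_ae (Filter.Eventually.of_forall fun v => ?_)
    show (H v).re * Real.cos (2 * Real.pi * v * -β) = (H v).re * Real.cos (2 * Real.pi * v * β)
    rw [mul_neg, Real.cos_neg]
  have k4 : ∫ x, (H x).im * Real.sin (2 * Real.pi * x * -β) =
      -∫ x, (H x).im * Real.sin (2 * Real.pi * x * β) := by
    rw [← integral_neg]
    refine integral_congr_ae (Filter.Eventually.of_forall fun v => ?_)
    show (H v).im * Real.sin (2 * Real.pi * v * -β) = -((H v).im * Real.sin (2 * Real.pi * v * β))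
    rw [mul_neg, Real.sin_neg]
    ring
  rw [k3, k4] at k2
  have k5 : ∫ x, ct ψ x * Real.cos (2 * Real.pi * x * β) =
      ∫ x, (H x).re * Real.cos (2 * Real.pi * x * β) := by
    refine integral_congr_ae (Filter.Eventually.of_forall fun v => ?_)
    show ct ψ v * _ = _
    rw [hct v]
  rw [k5, k1, k2]
  ring

/-- the main term -/
theorem main_term (ψ : ℝ → ℝ) (F : 𝓢(ℝ, ℂ)) (hF : ∀ x, F x = (ψ x : ℂ)) (hψ : Continuous ψ)
    (hs : HasCompactSupport ψ) : MZ (ct ψ) = ψ 0 + ∫ α, min |α| 1 * ψ α := by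
  have hct : ∀ x, ct ψ x = ((𝓕 F : 𝓢(ℝ, ℂ)) x).re := by
    intro x
    rw [SchwartzMap.fourier_coe, re_fourier F ψ hF x]
    rfl
  have hcti : Integrable (ct ψ) := by
    have h1 : Integrable ((𝓕 F : 𝓢(ℝ, ℂ)) : ℝ → ℂ) := (𝓕 F : 𝓢(ℝ, ℂ)).integrable
    refine h1.re.congr (Filter.Eventually.of_forall fun x => ?_)
    exact (hct x).symm
  have hctc : Continuous (ct ψ) := by
    have : ct ψ = fun x => ((𝓕 F : 𝓢(ℝ, ℂ)) x).re := funext hct
    rw [this]
    exact Complex.continuous_re.comp (𝓕 F : 𝓢(ℝ, ℂ)).continuous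
  have hψi : Integrable ψ := hψ.integrable_of_hasCompactSupport hs
  -- the integral against the Fejér kernel
  have hK : ∫ x, ct ψ x * (Real.sin (Real.pi * x) / (Real.pi * x)) ^ 2 =
      ∫ β, tent β * ((ψ β + ψ (-β)) / 2) := by
    have h1 : ∫ x, ct ψ x * (Real.sin (Real.pi * x) / (Real.pi * x)) ^ 2 =
        ∫ x, ∫ β, ct ψ x * (tent β * Real.cos (2 * Real.pi * x * β)) := by
      refine integral_congr_ae ?_
      have h0 : ∀ᵐ x : ℝ, x ≠ 0 := by
        rw [ae_iff]
        simp
      filter_upwards [h0] with x hx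
      rw [← fejer' hx, integral_const_mul]
    have hint : Integrable (Function.uncurry fun x β : ℝ =>
        ct ψ x * (tent β * Real.cos (2 * Real.pi * x * β))) (volume.prod volume) := by
      refine (hcti.norm.mul_prod tent_int.norm).mono' ?_ (Filter.Eventually.of_forall fun z => ?_)
      · apply Continuous.aestronglyMeasurable
        unfold Function.uncurry
        have := tent_cont
        fun_prop
      · simp only [Function.uncurry]
        rw [norm_mul, norm_mul]
        have := Real.abs_cos_le_one (2 * Real.pi * z.1 * z.2)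
        rw [← Real.norm_eq_abs] at this
        calc ‖ct ψ z.1‖ * (‖tent z.2‖ * ‖Real.cos (2 * Real.pi * z.1 * z.2)‖) ≤
            ‖ct ψ z.1‖ * (‖tent z.2‖ * 1) := by gcongr
          _ = _ := by ring
    rw [h1, integral_integral_swap hint]
    refine integral_congr_ae (Filter.Eventually.of_forall fun β => ?_)
    show ∫ x, ct ψ x * (tent β * Real.cos (2 * Real.pi * x * β)) = tent β * ((ψ β + ψ (-β)) / 2)
    rw [← ct_inv ψ F hF β, ← integral_const_mul]
    refine integral_congr_ae (Filter.Eventually.of_forall fun x => ?_)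
    show ct ψ x * (tent β * Real.cos (2 * Real.pi * x * β)) = _
    ring
  have hti : Integrable fun β => tent β * ψ β :=
    (tent_cont.mul hψ).integrable_of_hasCompactSupport (hs.mul_left)
  have hK2 : ∫ β, tent β * ((ψ β + ψ (-β)) / 2) = ∫ β, tent β * ψ β := by
    have h1 : ∫ β, tent (-β) * ψ (-β) = ∫ β, tent β * ψ β :=
      integral_neg_eq_self (fun β => tent β * ψ β) volume
    have h2 : ∫ β, tent β * ((ψ β + ψ (-β)) / 2) =
        ∫ β, (tent β * ψ β + tent (-β) * ψ (-β)) / 2 := by
      refine integral_congr_ae (Filter.Eventually.of_forall fun β => ?_)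
      have : tent (-β) = tent β := by
        unfold tent
        rw [abs_neg]
      show tent β * ((ψ β + ψ (-β)) / 2) = (tent β * ψ β + tent (-β) * ψ (-β)) / 2
      rw [this]
      ring
    rw [h2, integral_div, integral_add hti hti.comp_neg, h1]
    ring
  have h0 : ∫ x, ct ψ x = ψ 0 := by
    have h1 := ct_inv ψ F hF 0
    simp only [mul_zero, Real.cos_zero, mul_one, neg_zero] at h1
    rw [h1]
    ring
  have hsi : Integrable fun x => ct ψ x * (Real.sin (Real.pi * x) / (Real.pi * x)) ^ 2 := by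
    refine hcti.norm.mono' ?_ (Filter.Eventually.of_forall fun x => ?_)
    · apply hctc.aestronglyMeasurable.mul
      apply Measurable.aestronglyMeasurable
      fun_prop
    · rw [norm_mul, norm_pow]
      have : ‖Real.sin (Real.pi * x) / (Real.pi * x)‖ ≤ 1 := by
        rw [norm_div, Real.norm_eq_abs, Real.norm_eq_abs]
        exact div_le_one_of_le₀ Real.abs_sin_le_abs (abs_nonneg _)
      have h2 : ‖Real.sin (Real.pi * x) / (Real.pi * x)‖ ^ 2 ≤ 1 := pow_le_one₀ (norm_nonneg _) this
      exact mul_le_of_le_one_right (norm_nonneg _) h2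
  have hct0 : ct ψ 0 = ∫ α, ψ α := by
    unfold ct
    refine integral_congr_ae (Filter.Eventually.of_forall fun α => ?_)
    show ψ α * Real.cos (2 * Real.pi * α * 0) = ψ α
    rw [mul_zero, Real.cos_zero, mul_one]
  have hsplit : ∫ x, ct ψ x * (1 - (Real.sin (Real.pi * x) / (Real.pi * x)) ^ 2) =
      ψ 0 - ∫ β, tent β * ψ β := by
    rw [← h0, ← hK2, ← hK, ← integral_sub hcti hsi]
    refine integral_congr_ae (Filter.Eventually.of_forall fun x => ?_)
    show ct ψ x * (1 - (Real.sin (Real.pi * x) / (Real.pi * x)) ^ 2) = _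
    ring
  have hfin : ∫ α, min |α| 1 * ψ α = (∫ α, ψ α) - ∫ β, tent β * ψ β := by
    rw [← integral_sub hψi hti]
    refine integral_congr_ae (Filter.Eventually.of_forall fun α => ?_)
    show min |α| 1 * ψ α = ψ α - tent α * ψ α
    rw [← one_sub_tent]
    ring
  unfold MZ
  rw [hsplit, hct0, hfin]
  ring

theorem inv : S_INV := by
  intro ψ hψ hs
  obtain ⟨F, hF⟩ := exists_schwartz ψ hψ hs
  have hHs : HasCompactSupport (fun v => 2 * Real.pi * v * ψ v) := hs.mul_left
  obtain ⟨H, hH⟩ := exists_schwartz (fun v => 2 * Real.pi * v * ψ v)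
    (fun n => (contDiff_const.mul contDiff_id).mul (hψ n)) hHs
  have hct : ∀ x, ct ψ x = ((𝓕 F : 𝓢(ℝ, ℂ)) x).re := by
    intro x
    rw [SchwartzMap.fourier_coe, re_fourier F ψ hF x]
    rfl
  have hdt : ∀ x, dt ψ x = ((𝓕 H : 𝓢(ℝ, ℂ)) x).im := by
    intro x
    rw [SchwartzMap.fourier_coe, im_fourier H _ hH x]
    rfl
  have hder : ∀ x, HasDerivAt (ct ψ) (dt ψ x) x := by
    intro x
    have h1 : Integrable (F : ℝ → ℂ) := F.integrable
    have h2 : Integrable (fun v : ℝ => v • F v) := by
      have h3 : (fun v : ℝ => v • F v) = fun v => (1 / (2 * Real.pi)) • H v := by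
        funext v
        rw [hF v, hH v]
        have : (Real.pi : ℂ) ≠ 0 := by exact_mod_cast Real.pi_ne_zero
        simp only [Complex.real_smul]
        push_cast
        field_simp
      rw [h3]
      have hHi : Integrable (H : ℝ → ℂ) := H.integrable
      exact hHi.smul (1 / (2 * Real.pi))
    have h4 := Real.hasDerivAt_fourier h1 h2 x
    have h5 := Complex.reCLM.hasFDerivAt.comp_hasDerivAt x h4
    have h6 : (Complex.reCLM ∘ 𝓕 (F : ℝ → ℂ)) = ct ψ := by
      funext y
      rw [hct y]
      rfl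
    rw [h6] at h5
    have h7 : Complex.reCLM (𝓕 (fun v : ℝ => (-2 * Real.pi * Complex.I * v) • F v) x) = dt ψ x := by
      rw [hdt x, SchwartzMap.fourier_coe]
      have h8 : (fun v : ℝ => (-2 * Real.pi * Complex.I * v) • F v) =
          fun v : ℝ => (-Complex.I) • H v := by
        funext v
        rw [hF v, hH v]
        simp only [smul_eq_mul]
        push_cast
        ring
      rw [h8]
      have h9 : 𝓕 (fun v : ℝ => (-Complex.I) • H v) x = (-Complex.I) • 𝓕 (H : ℝ → ℂ) x := by
        rw [Real.fourier_real_eq, Real.fourier_real_eq, ← integral_smul]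
        refine integral_congr_ae (Filter.Eventually.of_forall fun v => ?_)
        simp only
        rw [smul_comm]
      rw [h9]
      simp
    rw [h7] at h5
    exact h5
  refine ⟨?_, hder, ?_, fun n => ?_, ?_⟩
  · intro x
    unfold ct
    refine integral_congr_ae (Filter.Eventually.of_forall fun α => ?_)
    show ψ α * Real.cos (2 * Real.pi * α * -x) = ψ α * Real.cos (2 * Real.pi * α * x)
    rw [mul_neg, Real.cos_neg]
  · have : dt ψ = fun x => ((𝓕 H : 𝓢(ℝ, ℂ)) x).im := funext hdt
    rw [this]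
    exact Complex.continuous_im.comp (𝓕 H : 𝓢(ℝ, ℂ)).continuous
  · obtain ⟨K1, hK1, h1⟩ := schwartz_decay (𝓕 F : 𝓢(ℝ, ℂ)) n
    obtain ⟨K2, hK2, h2⟩ := schwartz_decay (𝓕 H : 𝓢(ℝ, ℂ)) n
    refine ⟨max K1 K2, lt_max_of_lt_left hK1, fun x => ⟨?_, ?_⟩⟩
    · refine le_trans ?_ ((h1 x).trans (le_max_left _ _))
      rw [hct x]
      have := Complex.abs_re_le_norm ((𝓕 F : 𝓢(ℝ, ℂ)) x)
      gcongr
    · refine le_trans ?_ ((h2 x).trans (le_max_right _ _))
      rw [hdt x]
      have := Complex.abs_im_le_norm ((𝓕 H : 𝓢(ℝ, ℂ)) x)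
      gcongr
  · exact main_term ψ F hF (hψ 0).continuous hs

end Pool.Agent.W125.PF
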